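import Mathlib
import Pool.Agent.Y924.SI.Fin

set_option autoImplicit false

/-!
# The exact image of the unit disc under a polynomial whose zeros are symmetric in the unit circle

Let `P` be a polynomial of degree `n ≥ 1`, `A` the largest modulus of a coefficient and `M` the
maximum of `|P|` on the closed unit disc.

* (both reflections `ζ ↦ 1/ζ` and `ζ ↦ 1/conj ζ`) `P(𝔻)` contains a disc of radius `max(A, M/2)`.
* (`ζ ↦ 1/conj ζ`) `P(𝔻)` without the origin is the union, over the points `z` of the unit circle, of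
  the open discs with centre `P(z) - z P'(z)/n` and radius `|P'(z)|/n`. It is star-shaped with respect to
  the origin, and `w ≠ 0` is a value of `P` in the disc if and only if the Hermitian form
  `2 Re(conj w · ⟨T x, x⟩) - |w|² ⟨x, x⟩` takes a positive value, where `T` is the lower triangular
  Toeplitz matrix of `a_0, ..., a_(n-1)`.
* (`ζ ↦ 1/conj ζ`) `P(𝔻) ∪ {0}` contains a disc of radius `(∑_{0<k<n} |a_k|²)^(1/2)`. If not all zeros are
  on the circle, then `P(𝔻)` contains a disc of radius `max(M/2, (∑_{0<k<n} |a_k|²)^(1/2)) ≥ A`.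
-/

namespace Pool.Agent.Results.MP_c7fa02_an.ExactImage

open Polynomial

theorem result (P : ℂ[X]) (hn : 1 ≤ P.natDegree) :
    -- both reflections
    ((∀ ζ : ℂ, P.eval ζ = 0 → ζ ≠ 0 ∧ P.rootMultiplicity (1 / ζ) = P.rootMultiplicity ζ) ∨
      (∀ ζ : ℂ, P.eval ζ = 0 →
        ζ ≠ 0 ∧ P.rootMultiplicity (1 / (starRingEnd ℂ) ζ) = P.rootMultiplicity ζ) →
      ∃ z₁ : ℂ, ‖z₁‖ = 1 ∧ (∀ z : ℂ, ‖z‖ ≤ 1 → ‖P.eval z‖ ≤ ‖P.eval z₁‖) ∧
        ∃ w₀ : ℂ, Metric.ball w₀ (max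
          ((Finset.range (P.natDegree + 1)).sup' Finset.nonempty_range_add_one
            (fun k => ‖P.coeff k‖)) (‖P.eval z₁‖ / 2))
          ⊆ (fun z => P.eval z) '' Metric.ball (0 : ℂ) 1) ∧
    -- reflection in the unit circle
    ((∀ ζ : ℂ, P.eval ζ = 0 →
        ζ ≠ 0 ∧ P.rootMultiplicity (1 / (starRingEnd ℂ) ζ) = P.rootMultiplicity ζ) →
      ((fun z => P.eval z) '' Metric.ball (0 : ℂ) 1) \ {0} =
        ⋃ z ∈ Metric.sphere (0 : ℂ) 1,
          Metric.ball (P.eval z - z * (derivative P).eval z / (P.natDegree : ℂ))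
            (‖(derivative P).eval z‖ / P.natDegree) ∧
      (∀ w ∈ (fun z => P.eval z) '' Metric.ball (0 : ℂ) 1, ∀ t : ℝ, 0 < t → t ≤ 1 →
        (t : ℂ) * w ∈ (fun z => P.eval z) '' Metric.ball (0 : ℂ) 1) ∧
      (∀ w : ℂ, w ≠ 0 → (w ∈ (fun z => P.eval z) '' Metric.ball (0 : ℂ) 1 ↔
        ∃ x : ℕ → ℂ, ‖w‖ ^ 2 * ∑ j ∈ Finset.range P.natDegree, ‖x j‖ ^ 2 <
          2 * ((starRingEnd ℂ) w * ∑ j ∈ Finset.range P.natDegree,
            (∑ i ∈ Finset.range (j + 1), P.coeff (j - i) * x i) * (starRingEnd ℂ) (x j)).re)) ∧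
      (∃ w₀ : ℂ, Metric.ball w₀
          (Real.sqrt (∑ k ∈ Finset.Ico 1 P.natDegree, ‖P.coeff k‖ ^ 2)) ⊆
        insert 0 ((fun z => P.eval z) '' Metric.ball (0 : ℂ) 1)) ∧
      ((∃ ζ : ℂ, P.eval ζ = 0 ∧ ‖ζ‖ ≠ 1) →
        ∃ z₁ : ℂ, ‖z₁‖ = 1 ∧ (∀ z : ℂ, ‖z‖ ≤ 1 → ‖P.eval z‖ ≤ ‖P.eval z₁‖) ∧
          ((Finset.range (P.natDegree + 1)).sup' Finset.nonempty_range_add_one
            (fun k => ‖P.coeff k‖)) ≤ max (‖P.eval z₁‖ / 2)
              (Real.sqrt (∑ k ∈ Finset.Ico 1 P.natDegree, ‖P.coeff k‖ ^ 2)) ∧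
          ∃ w₀ : ℂ, Metric.ball w₀ (max (‖P.eval z₁‖ / 2)
              (Real.sqrt (∑ k ∈ Finset.Ico 1 P.natDegree, ‖P.coeff k‖ ^ 2)))
            ⊆ (fun z => P.eval z) '' Metric.ball (0 : ℂ) 1)) := by
  refine ⟨fun hP => ?_, fun hP => ?_⟩
  · obtain ⟨z₁, hz₁, hmax⟩ := Pool.Agent.Y924.SI.exists_max P
    refine ⟨z₁, hz₁, hmax, ?_⟩
    rcases le_total ((Finset.range (P.natDegree + 1)).sup' Finset.nonempty_range_add_one
            (fun k => ‖P.coeff k‖)) (‖P.eval z₁‖ / 2) with h | h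
    · rw [max_eq_right h]
      exact Pool.Agent.Y924.SI.half_disc hn hP hz₁
    · rw [max_eq_left h]
      rcases hP with hP | hP
      · exact Pool.Agent.Helper140.SelfInv.A.main_inv P hn hP
      · exact Pool.Agent.Helper140.SelfInv.A.main_conj P hn hP
  · obtain ⟨ε, hε, hsym⟩ := Pool.Agent.Helper140.SelfInv.A.symm_conj P hn hP
    have hε1 := Pool.Agent.Y924.SI.norm_one_of hε
    have hd := Pool.Agent.Y924.SI.l2disc hn hε1 hsym
    refine ⟨Pool.Agent.Y924.SI.union_eq hn hε1 hsym,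
      fun w hw t h0 h1 => Pool.Agent.Y924.SI.star_shaped hn hε1 hsym hw h0 h1,
      fun w hw => Pool.Agent.Y924.SI.criterion hn hε1 hsym hw, hd, fun hz => ?_⟩
    obtain ⟨z₁, hz₁, hmax⟩ := Pool.Agent.Y924.SI.exists_max P
    refine ⟨z₁, hz₁, hmax, Pool.Agent.Y924.SI.sup_le_max hn hP hmax, ?_⟩
    rcases le_total (Real.sqrt (∑ k ∈ Finset.Ico 1 P.natDegree, ‖P.coeff k‖ ^ 2))
      (‖P.eval z₁‖ / 2) with h | h
    · rw [max_eq_left h]
      exact Pool.Agent.Y924.SI.half_disc hn (Or.inr hP) hz₁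
    · rw [max_eq_right h]
      obtain ⟨w₀, hw₀⟩ := hd
      refine ⟨w₀, fun w hw => ?_⟩
      rcases hw₀ hw with rfl | h1
      · exact Pool.Agent.Y924.SI.zero_mem hn hP hz
      · exact h1

end Pool.Agent.Results.MP_c7fa02_an.ExactImage
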